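import Pool.Agent.Helper77_FK.FPO

/-!
# Squad FK, module FPH: the polynomial on a line has integral coefficients
-/

namespace Pool.Agent.FK.H77

open NumberField Polynomial Module

noncomputable section

lemma prod_perm {R : Type*} [CommRing R] {n : ℕ} (a b : Fin n → R) (π : Equiv.Perm (Fin n)) :
    ∏ i, ∏ j ∈ Finset.Ioi i, ((a (π j) - a (π i)) * (b (π j) - b (π i))) =
      ∏ i, ∏ j ∈ Finset.Ioi i, ((a j - a i) * (b j - b i)) := by
  have key : ∀ c : Fin n → R, ∏ i, ∏ j ∈ Finset.Ioi i, (c (π j) - c (π i)) =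
      (Equiv.Perm.sign π : ℤ) * ∏ i, ∏ j ∈ Finset.Ioi i, (c j - c i) := by
    intro c
    have h1 := Matrix.det_vandermonde (fun i => c (π i))
    have h2 := Matrix.det_vandermonde c
    have h3 := Matrix.det_permute π (Matrix.vandermonde c)
    have h4 : (Matrix.vandermonde c).submatrix π id = Matrix.vandermonde (fun i => c (π i)) := rfl
    rw [h4, h1, h2] at h3
    exact h3
  have hs : ((Equiv.Perm.sign π : ℤ) : R) * ((Equiv.Perm.sign π : ℤ) : R) = 1 := by
    rw [← Int.cast_mul, ← Units.val_mul, Int.units_mul_self]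
    simp
  simp only [Finset.prod_mul_distrib]
  rw [key a, key b]
  calc _ = (((Equiv.Perm.sign π : ℤ) : R) * ((Equiv.Perm.sign π : ℤ) : R)) *
        ((∏ i, ∏ j ∈ Finset.Ioi i, (a j - a i)) * ∏ i, ∏ j ∈ Finset.Ioi i, (b j - b i)) := by ring
    _ = _ := by rw [hs, one_mul]

/-- The factor of the product. -/
def fac {R : Type*} [CommRing R] (vi vj zi zj : R) : R[X] :=
  C (vj - vi) * (C (zj - zi) + C (vj - vi) * X)

lemma fac_map {R S : Type*} [CommRing R] [CommRing S] (f : R →+* S) (vi vj zi zj : R) :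
    (fac vi vj zi zj).map f = fac (f vi) (f vj) (f zi) (f zj) := by
  simp [fac]

lemma fac_eq {R : Type*} [CommRing R] (vi vj zi zj : R) :
    fac vi vj zi zj = (C vj - C vi) * ((C zj + C vj * X) - (C zi + C vi * X)) := by
  simp only [fac, C_sub]
  ring

lemma fac_prod_perm {R : Type*} [CommRing R] {n : ℕ} (v z : Fin n → R) (π : Equiv.Perm (Fin n)) :
    ∏ i, ∏ j ∈ Finset.Ioi i, fac (v (π i)) (v (π j)) (z (π i)) (z (π j)) =
      ∏ i, ∏ j ∈ Finset.Ioi i, fac (v i) (v j) (z i) (z j) := by
  simp only [fac_eq]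
  exact prod_perm (fun i => C (v i)) (fun i => C (z i) + C (v i) * X) π

theorem fph : FphStmt := by
  intro ι _ K _ _ n en e v
  obtain ⟨F, hF⟩ := exists_polyC (∏ i : Fin n, ∏ j ∈ Finset.Ioi i,
      fac (cjA K v (en i)) (cjA K v (en j)) (cjA K e (en i)) (cjA K e (en j))) (fun g => by
    simp only [Polynomial.map_prod, fac_map]
    rw [← fac_prod_perm (fun i => algebraMap OA QA (cjA K v (en i)))
      (fun i => algebraMap OA QA (cjA K e (en i))) ((en.trans (permE K g)).trans en.symm)]
    refine Finset.prod_congr rfl (fun i _ => Finset.prod_congr rfl (fun j _ => ?_))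
    have h : ∀ (w : RR K) (k : Fin n), (g : QA →+* QA) (algebraMap OA QA (cjA K w (en k))) =
        algebraMap OA QA (cjA K w (en (((en.trans (permE K g)).trans en.symm) k))) := by
      intro w k
      simp only [Equiv.trans_apply, Equiv.apply_symm_apply]
      exact (cjA_perm K g w (en k)).symm
    rw [h, h, h, h])
  refine ⟨F, ?_⟩
  unfold LinePoly
  rw [hF]
  simp only [Polynomial.map_prod, fac_map]
  refine Finset.prod_congr rfl (fun i _ => Finset.prod_congr rfl (fun j _ => ?_))
  rfl

end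

end Pool.Agent.FK.H77
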