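import Pool.Agent.Helper77_FK.Common

/-!
# Squad FK, module FPO: the characteristic polynomial of an element has integral coefficients
-/

namespace Pool.Agent.FK.H77

open NumberField Polynomial Module

noncomputable section

variable {ι : Type} (K : ι → Type) [∀ a, Field (K a)] [∀ a, NumberField (K a)]

/-- The conjugates as algebraic integers. -/
def cjA (e : RR K) (i : Emb K) : OA := cl (K i.1) i.2 (e i.1)

/-- The permutation of the embeddings. -/
def permE (g : QA ≃ₐ[ℚ] QA) : Emb K ≃ Emb K :=
  Equiv.sigmaCongrRight (fun a => perm (K a) g)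

lemma cjA_perm (g : QA ≃ₐ[ℚ] QA) (e : RR K) (i : Emb K) :
    ((cjA K e (permE K g i) : OA) : QA) = g (cjA K e i : OA) := by
  obtain ⟨a, σ⟩ := i
  exact lft_act (K a) g σ (e a)

lemma coe_cjA (e : RR K) (i : Emb K) :
    algebraMap QA ℂ (algebraMap OA QA (cjA K e i)) = cj K e i := rfl

theorem fpo : FpoStmt := by
  intro ι _ K _ _ e
  obtain ⟨F, hF⟩ := exists_polyC (∏ i : Emb K, (X - C (cjA K e i))) (fun g => by
    rw [Polynomial.map_prod, Polynomial.map_prod]
    refine (Finset.prod_congr rfl (fun i _ => ?_)).trans (Equiv.prod_comp (permE K g)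
      (fun i => (X - C (cjA K e i)).map (algebraMap OA QA)))
    simp only [Polynomial.map_sub, map_X, map_C]
    have h := cjA_perm K g e i
    change X - C (g (cjA K e i : OA)) = X - C ((cjA K e (permE K g i) : OA) : QA)
    rw [h])
  refine ⟨F, ?_⟩
  rw [hF, Polynomial.map_prod]
  refine Finset.prod_congr rfl (fun i _ => ?_)
  simp only [Polynomial.map_sub, map_X, map_C]
  rfl

theorem cpz : CpzStmt := by
  intro L L' _ _ _ _ x y
  obtain ⟨F, hF⟩ := exists_int (∏ σ : L →+* ℂ, ∏ τ : L' →+* ℂ, (cl L σ x - cl L' τ y))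
    (fun g => by
      change g (algebraMap OA QA _) = algebraMap OA QA _
      rw [map_prod, map_prod]
      rw [← Equiv.prod_comp (perm L g) (fun σ => algebraMap OA QA (∏ τ : L' →+* ℂ,
        (cl L σ x - cl L' τ y)))]
      refine Finset.prod_congr rfl (fun σ _ => ?_)
      rw [map_prod, map_prod, map_prod]
      rw [← Equiv.prod_comp (perm L' g) (fun τ => algebraMap OA QA
        (cl L (perm L g σ) x - cl L' τ y))]
      refine Finset.prod_congr rfl (fun τ _ => ?_)
      rw [map_sub, map_sub, map_sub]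
      exact congrArg₂ (· - ·) (lft_act L g σ x).symm (lft_act L' g τ y).symm)
  refine ⟨F, ?_⟩
  have h1 := congrArg (algebraMap QA ℂ) hF
  change algebraMap QA ℂ ((F : ℤ) : QA) = algebraMap QA ℂ (algebraMap OA QA _) at h1
  rw [map_intCast, map_prod, map_prod] at h1
  rw [h1]
  refine Finset.prod_congr rfl (fun σ _ => ?_)
  rw [map_prod, map_prod]
  refine Finset.prod_congr rfl (fun τ _ => ?_)
  rw [map_sub, map_sub]
  rfl

end

end Pool.Agent.FK.H77
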