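import Pool.Agent.Helper13_FK.Stmts

/-!
# Squad FK, tools: descent from the algebraic closure of `ℚ` in `ℂ` to `ℤ`
-/

namespace Pool.Agent.FK.H77

open NumberField Polynomial Module

noncomputable section

/-- The field of algebraic numbers inside `ℂ`. -/
abbrev QA : IntermediateField ℚ ℂ := algebraicClosure ℚ ℂ

/-- The ring of algebraic integers inside `QA`. -/
abbrev OA : Type := integralClosure ℤ QA

section Lift

variable (L : Type) [Field L] [NumberField L]

/-- An embedding of a number field in `ℂ` takes values in the algebraic numbers. -/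
def lft (σ : L →+* ℂ) : L →ₐ[ℚ] QA :=
  AlgHom.codRestrict σ.toRatAlgHom QA.toSubalgebra (fun x => by
    have h : IsIntegral ℚ (σ.toRatAlgHom x) :=
      (Algebra.IsIntegral.isIntegral (R := ℚ) x).map σ.toRatAlgHom
    exact mem_algebraicClosure_iff'.mpr h)

lemma lft_coe (σ : L →+* ℂ) (x : L) : ((lft L σ x : QA) : ℂ) = σ x := rfl

/-- The action of the Galois group on the embeddings. -/
def act (g : QA ≃ₐ[ℚ] QA) (σ : L →+* ℂ) : L →+* ℂ :=
  (algebraMap QA ℂ).comp ((g : QA →+* QA).comp (lft L σ : L →+* QA))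

lemma lft_act (g : QA ≃ₐ[ℚ] QA) (σ : L →+* ℂ) (x : L) :
    lft L (act L g σ) x = g (lft L σ x) := by
  apply Subtype.ext
  rfl

/-- The action as a permutation. -/
def perm (g : QA ≃ₐ[ℚ] QA) : (L →+* ℂ) ≃ (L →+* ℂ) where
  toFun := act L g
  invFun := act L g.symm
  left_inv σ := by
    ext x
    rw [← lft_coe, lft_act, lft_act]
    simp [lft_coe]
  right_inv σ := by
    ext x
    rw [← lft_coe, lft_act, lft_act]
    simp [lft_coe]

lemma isIntegral_lft (σ : L →+* ℂ) (x : 𝓞 L) : IsIntegral ℤ (lft L σ (x : L)) := by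
  have h : IsIntegral ℤ (x : L) := x.2
  exact h.map (((lft L σ : L →+* QA)).toIntAlgHom)

/-- The conjugates as algebraic integers. -/
def cl (σ : L →+* ℂ) (x : 𝓞 L) : OA := ⟨lft L σ (x : L), isIntegral_lft L σ x⟩

lemma coe_cl (σ : L →+* ℂ) (x : 𝓞 L) : ((cl L σ x : OA) : QA) = lft L σ (x : L) := rfl

end Lift

instance : IsGalois ℚ QA := by
  have : IsAlgClosure ℚ QA := algebraicClosure.isAlgClosure ℚ ℂ
  have : Normal ℚ QA := IsAlgClosure.normal ℚ QA
  exact { }

/-- An algebraic integer fixed by the Galois group is an integer. -/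
lemma exists_int (y : OA) (h : ∀ g : QA ≃ₐ[ℚ] QA, g (y : QA) = y) :
    ∃ n : ℤ, (n : QA) = (y : QA) := by
  have h1 : (y : QA) ∈ (⊥ : IntermediateField ℚ QA) :=
    (InfiniteGalois.mem_bot_iff_fixed (y : QA)).mpr h
  obtain ⟨q, hq⟩ := IntermediateField.mem_bot.mp h1
  have h2 : IsIntegral ℤ (algebraMap ℚ QA q) := by
    rw [hq]; exact y.2
  have h3 : IsIntegral ℤ q := (isIntegral_algebraMap_iff (algebraMap ℚ QA).injective).mp h2
  obtain ⟨n, hn⟩ := IsIntegrallyClosed.isIntegral_iff.mp h3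
  refine ⟨n, ?_⟩
  rw [← hq, ← hn]
  simp

/-- A polynomial over the algebraic integers fixed by the Galois group has integral
coefficients. -/
lemma exists_poly (P : OA[X]) (h : ∀ g : QA ≃ₐ[ℚ] QA,
    (P.map (algebraMap OA QA)).map (g : QA →+* QA) = P.map (algebraMap OA QA)) :
    ∃ F : ℤ[X], F.map (Int.castRingHom QA) = P.map (algebraMap OA QA) := by
  have h1 : P.map (algebraMap OA QA) ∈ lifts (Int.castRingHom QA) := by
    rw [lifts_iff_coeff_lifts]
    intro n
    obtain ⟨m, hm⟩ := exists_int (P.coeff n) (fun g => by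
      have h2 := congrArg (fun Q => Polynomial.coeff Q n) (h g)
      simp only [coeff_map] at h2
      exact h2)
    refine ⟨m, ?_⟩
    rw [coeff_map]
    simpa using hm
  exact (mem_lifts _).mp h1

/-- The version over `ℂ`. -/
lemma exists_polyC (P : OA[X]) (h : ∀ g : QA ≃ₐ[ℚ] QA,
    (P.map (algebraMap OA QA)).map (g : QA →+* QA) = P.map (algebraMap OA QA)) :
    ∃ F : ℤ[X], F.map (Int.castRingHom ℂ) = P.map ((algebraMap QA ℂ).comp (algebraMap OA QA)) := by
  obtain ⟨F, hF⟩ := exists_poly P h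
  have h2 : (algebraMap QA ℂ).comp (Int.castRingHom QA) = Int.castRingHom ℂ :=
    RingHom.ext_int _ _
  exact ⟨F, by rw [← Polynomial.map_map, ← hF, Polynomial.map_map, h2]⟩

end

end Pool.Agent.FK.H77
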